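import Pool.Agent.Helper81.OP.Defs

/-! # SRCH: soundness of the path search -/

set_option autoImplicit false

open SimpleGraph
open scoped Classical

namespace Pool.Agent.Helper81.OP

variable {V : Type} {G : SimpleGraph V}

theorem srch_append {a b c : V} {X Y : Finset V} (h1 : HP G a b X) (h2 : HP G b c Y)
    (hd : ∀ v, v ∈ X → v ∈ Y → v = b) : HP G a c (X ∪ Y) := by
  obtain ⟨p, hp, hX⟩ := h1
  obtain ⟨q, hq, hY⟩ := h2
  refine ⟨p.append q, ?_, fun v => ?_⟩
  · rw [Walk.isPath_def, Walk.support_append]
    have hq' := hq.support_nodup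
    rw [← Walk.cons_tail_support q] at hq'
    rw [List.nodup_append]
    refine ⟨hp.support_nodup, (List.nodup_cons.1 hq').2, ?_⟩
    intro x hx y hy hxy
    subst hxy
    have h3 := hd x ((hX x).1 hx) ((hY x).1 (List.mem_of_mem_tail hy))
    subst h3
    exact (List.nodup_cons.1 hq').1 hy
  · rw [Walk.mem_support_append_iff, hX, hY, Finset.mem_union]

theorem srch_edge {a b : V} (h : G.Adj a b) : HP G a b {a, b} := by
  refine ⟨Walk.cons h Walk.nil, ?_, fun v => ?_⟩
  · simp [h.ne]
  · simp

theorem srch_mem {f : ℕ → V} {m : ℕ} {v : V} :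
    v ∈ fm f m ↔ ∃ i < 6, m.testBit i = true ∧ f i = v := by
  unfold fm
  simp only [Finset.mem_image, Finset.mem_filter, Finset.mem_range]
  constructor
  · rintro ⟨i, ⟨h1, h2⟩, h3⟩
    exact ⟨i, h1, h2, h3⟩
  · rintro ⟨i, h1, h2, h3⟩
    exact ⟨i, ⟨h1, h2⟩, h3⟩

theorem srch_un {C : Finset V} {Cs : List (Finset V)} : un (C :: Cs) = C ∪ un Cs := rfl

theorem srch_mem_un {Cs : List (Finset V)} {v : V} : v ∈ un Cs ↔ ∃ C ∈ Cs, v ∈ C := by
  induction Cs with
  | nil => simp [un]
  | cons C Cs ih =>
    rw [srch_un, Finset.mem_union, ih]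
    simp

/-- a removal from the list of states gives a removal from the list of branches -/
theorem srch_splits {f : ℕ → V} : ∀ (bs : List St) (Cs : List (Finset V)),
    List.Forall₂ (fun σ C => Real G f C σ) bs Cs → ∀ p ∈ splits bs,
    ∃ (C : Finset V) (Cs' : List (Finset V)), List.Perm Cs (C :: Cs') ∧ Real G f C p.1 ∧
      List.Forall₂ (fun σ C => Real G f C σ) p.2 Cs' := by
  intro bs Cs h
  induction h with
  | nil =>
    intro p hp
    simp [splits] at hp
  | @cons σ C bs Cs h1 h2 ih =>
    intro p hp
    rw [splits, List.mem_cons] at hp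
    rcases hp with rfl | hp
    · exact ⟨C, Cs, List.Perm.refl _, h1, h2⟩
    · rw [List.mem_map] at hp
      obtain ⟨p', hp', rfl⟩ := hp
      obtain ⟨C', Cs', k1, k2, k3⟩ := ih p' hp'
      exact ⟨C', C :: Cs', (k1.cons C).trans (List.Perm.swap _ _ _), k2, List.Forall₂.cons h1 k3⟩

theorem srch_lt {m q i : ℕ} (h : m < 2 ^ q) (hi : m.testBit i = true) : i < q := by
  by_contra hc
  have := Nat.testBit_lt_two_pow (lt_of_lt_of_le h (Nat.pow_le_pow_right (by norm_num) (not_lt.1 hc)))
  rw [this] at hi
  exact absurd hi (by simp)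

theorem srch_or {f : ℕ → V} {m m' : ℕ} {v : V} :
    v ∈ fm f (m ||| m') ↔ v ∈ fm f m ∨ v ∈ fm f m' := by
  rw [srch_mem, srch_mem, srch_mem]
  constructor
  · rintro ⟨i, h1, h2, h3⟩
    rw [Nat.testBit_or, Bool.or_eq_true] at h2
    rcases h2 with h2 | h2
    · exact Or.inl ⟨i, h1, h2, h3⟩
    · exact Or.inr ⟨i, h1, h2, h3⟩
  · rintro (⟨i, h1, h2, h3⟩ | ⟨i, h1, h2, h3⟩)
    · exact ⟨i, h1, by rw [Nat.testBit_or, h2, Bool.true_or], h3⟩
    · exact ⟨i, h1, by rw [Nat.testBit_or, h2, Bool.or_true], h3⟩

theorem srch_pow {f : ℕ → V} {i : ℕ} (hi : i < 6) {v : V} : v ∈ fm f (2 ^ i) ↔ v = f i := by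
  rw [srch_mem]
  constructor
  · rintro ⟨j, -, h2, h3⟩
    rw [Nat.testBit_two_pow, decide_eq_true_eq] at h2
    rw [← h3, h2]
  · rintro rfl
    exact ⟨i, hi, Nat.testBit_two_pow_self, rfl⟩

theorem srch_split {w m : ℕ} (h : w &&& m = w) : m = w ||| (m ^^^ w) := by
  apply Nat.eq_of_testBit_eq
  intro i
  have h1 : (w.testBit i && m.testBit i) = w.testBit i := by
    rw [← Nat.testBit_and, h]
  rw [Nat.testBit_or, Nat.testBit_xor]
  revert h1
  cases w.testBit i <;> cases m.testBit i <;> simp

theorem srch_xor {w m i : ℕ} (h : w &&& m = w) (hi : w.testBit i = true) :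
    (m ^^^ w).testBit i = false := by
  have h1 : (w.testBit i && m.testBit i) = w.testBit i := by
    rw [← Nat.testBit_and, h]
  rw [Nat.testBit_xor]
  rw [hi] at h1 ⊢
  revert h1
  cases m.testBit i <;> simp

theorem srch_xor' {w m i : ℕ} (h : w &&& m = w) (hi : m.testBit i = false) :
    (m ^^^ w).testBit i = false := by
  have h1 : (w.testBit i && m.testBit i) = w.testBit i := by
    rw [← Nat.testBit_and, h]
  rw [Nat.testBit_xor]
  rw [hi] at h1 ⊢
  revert h1
  cases w.testBit i <;> simp

theorem srch_full {q i : ℕ} (hi : i < q) : (2 ^ q - 1).testBit i = true := by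
  rw [Nat.testBit_two_pow_sub_one]
  simp [hi]

/-- removing a branch -/
theorem srch_conf {f : ℕ → V} {q : ℕ} {bs : List St} {Cs : List (Finset V)}
    (h : Conf G f q bs Cs) {p : St × List St} (hp : p ∈ splits bs) :
    ∃ (C : Finset V) (Cs' : List (Finset V)), Real G f C p.1 ∧ Conf G f q p.2 Cs' ∧
      un Cs = C ∪ un Cs' ∧ Disjoint C (un Cs') ∧ Disjoint C (fm f (2 ^ q - 1)) := by
  obtain ⟨C, Cs', h1, h2, h3⟩ := srch_splits bs Cs h.real p hp
  have hmem : ∀ D, D ∈ Cs ↔ D = C ∨ D ∈ Cs' := by
    intro D
    rw [h1.mem_iff, List.mem_cons]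
  have hpw : (C :: Cs').Pairwise Disjoint :=
    (h1.pairwise_iff (fun {a b} (h : Disjoint a b) => h.symm)).1 h.dj
  rw [List.pairwise_cons] at hpw
  refine ⟨C, Cs', h2, ⟨h.inj, h.adj, h3, hpw.2, fun D hD => h.off D ((hmem D).2 (Or.inr hD))⟩,
    ?_, ?_, h.off C ((hmem C).2 (Or.inl rfl))⟩
  · ext v
    rw [Finset.mem_union, srch_mem_un, srch_mem_un]
    constructor
    · rintro ⟨D, hD, hv⟩
      rcases (hmem D).1 hD with rfl | hD'
      · exact Or.inl hv
      · exact Or.inr ⟨D, hD', hv⟩
    · rintro (hv | ⟨D, hD, hv⟩)
      · exact ⟨C, (hmem C).2 (Or.inl rfl), hv⟩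
      · exact ⟨D, (hmem D).2 (Or.inr hD), hv⟩
  · rw [Finset.disjoint_left]
    intro v hv hv'
    rw [srch_mem_un] at hv'
    obtain ⟨D, hD, hv'⟩ := hv'
    exact Finset.disjoint_left.1 (hpw.1 D hD) hv hv'

theorem st_SRCH : ST_SRCH := by
  intro V G f q n
  induction n with
  | zero =>
    intro b c rem bs Cs _ _ _ _ _ _ h
    simp [search] at h
  | succ n ih =>
    intro b c rem bs Cs hq hC hb hc hrem hrc hs
    have hq6 : ∀ {i}, i < q → i < 6 := fun hi => lt_of_lt_of_le hi hq
    have hfull : ∀ i < q, f i ∈ fm f (2 ^ q - 1) := fun i hi =>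
      srch_mem.2 ⟨i, hq6 hi, srch_full hi, rfl⟩
    have hoff : ∀ i < q, f i ∉ un Cs := by
      intro i hi hv
      rw [srch_mem_un] at hv
      obtain ⟨C, hC', hv⟩ := hv
      exact Finset.disjoint_left.1 (hC.off C hC') hv (hfull i hi)
    have hmem : ∀ {m}, m < 2 ^ q → ∀ i < q, (f i ∈ fm f m ↔ m.testBit i = true) := by
      intro m hm i hi
      rw [srch_mem]
      constructor
      · rintro ⟨j, -, hj, he⟩
        rw [← hC.inj j (srch_lt hm hj) i hi he]
        exact hj
      · intro hb'
        exact ⟨i, hq6 hi, hb', rfl⟩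
    rw [search, Bool.or_eq_true, Bool.or_eq_true] at hs
    rcases hs with (hs | hs) | hs
    · -- the final edge
      rw [Bool.and_eq_true, decide_eq_true_eq, List.isEmpty_iff] at hs
      obtain ⟨rfl, rfl⟩ := hs
      have hCs : Cs = [] := List.forall₂_nil_left_iff.1 hC.real
      subst hCs
      have hne : c ≠ b := by
        rintro rfl
        rw [Nat.testBit_two_pow_self] at hrc
        exact absurd hrc (by simp)
      have h1 := srch_edge (hC.adj c hc b hb hne)
      have h2 : (insert (f c) (fm f (2 ^ b)) ∪ un [] : Finset V) = {f c, f b} := by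
        ext v
        simp only [un, List.foldr_nil, Finset.union_empty, Finset.mem_insert,
          Finset.mem_singleton, srch_mem]
        constructor
        · rintro (h | ⟨i, -, h, rfl⟩)
          · exact Or.inl h
          · rw [Nat.testBit_two_pow] at h
            simp only [decide_eq_true_eq] at h
            exact Or.inr (by rw [h])
        · rintro (h | h)
          · exact Or.inl h
          · exact Or.inr ⟨b, hq6 hb, Nat.testBit_two_pow_self, h.symm⟩
      rw [h2]
      exact h1
    · -- through a branch
      rw [List.any_eq_true] at hs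
      obtain ⟨p, hp, hs⟩ := hs
      rw [List.any_eq_true] at hs
      obtain ⟨t, ht, hs⟩ := hs
      simp only [Bool.and_eq_true, decide_eq_true_eq, Bool.not_eq_true'] at hs
      obtain ⟨⟨⟨⟨htc, htd⟩, hU⟩, hUd⟩, hs⟩ := hs
      obtain ⟨C, Cs', hR, hC', hun, hCd, hCf⟩ := srch_conf hC hp
      have hty := hR.ty t ht
      rw [htc] at hty
      have hd : t.2.1 < q := srch_lt hrem htd
      have hcd : c ≠ t.2.1 := by
        intro e
        rw [← e, hrc] at htd
        exact absurd htd (by simp)
      have hfcd : f c ≠ f t.2.1 := fun e => hcd (hC.inj c hc _ hd e)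
      have hUlt : t.2.2 < 2 ^ q := by
        rw [← hU]
        exact lt_of_le_of_lt Nat.and_le_right hrem
      have hfmq : ∀ m, m < 2 ^ q → ∀ v, v ∈ fm f m → v ∈ fm f (2 ^ q - 1) := by
        intro m hm v hv
        rw [srch_mem] at hv
        obtain ⟨i, -, h2, rfl⟩ := hv
        exact hfull i (srch_lt hm h2)
      split_ifs at hs with hdb
      · -- last step
        simp only [Bool.and_eq_true, decide_eq_true_eq, List.isEmpty_iff] at hs
        obtain ⟨h1, h2⟩ := hs
        have h3 := hC'.real
        rw [h2, List.forall₂_nil_left_iff] at h3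
        subst h3
        rw [hdb] at hty hfcd
        have h4 : (insert (f c) (fm f rem) ∪ un Cs : Finset V) =
            C ∪ {f c, f b} ∪ fm f t.2.2 := by
          ext v
          rw [hun, h1]
          simp only [Finset.mem_union, Finset.mem_insert, Finset.mem_singleton, srch_or,
            srch_pow (hq6 hb), un, List.foldr_nil, Finset.notMem_empty]
          tauto
        rw [h4]
        exact hty
      · set w := t.2.2 ||| 2 ^ t.2.1 with hw
        have hwr : w &&& rem = w := by
          apply Nat.eq_of_testBit_eq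
          intro i
          have h1 : (t.2.2.testBit i && rem.testBit i) = t.2.2.testBit i := by
            rw [← Nat.testBit_and, hU]
          rw [Nat.testBit_and, hw, Nat.testBit_or, Nat.testBit_two_pow]
          by_cases h2 : t.2.1 = i
          · subst h2
            rw [htd]
            simp
          · simp only [h2, decide_false, Bool.or_false]
            exact h1
        have hw' : rem ^^^ w < 2 ^ q := Nat.xor_lt_two_pow hrem (by
          rw [← hwr]
          exact lt_of_le_of_lt Nat.and_le_right hrem)
        have hwd : w.testBit t.2.1 = true := by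
          rw [hw, Nat.testBit_or, Nat.testBit_two_pow_self, Bool.or_true]
        have h1 := ih b t.2.1 (rem ^^^ w) p.2 Cs' hq hC' hb hd hw' (srch_xor hwr hwd) hs
        have hsplit := srch_split hwr
        have h2 := srch_append hty h1 (by
          intro v hv hv'
          simp only [Finset.mem_union, Finset.mem_insert, Finset.mem_singleton] at hv hv'
          rcases hv' with (hv' | hv') | hv'
          · exact hv'
          · exfalso
            rcases hv with (hv | hv | hv) | hv
            · exact Finset.disjoint_left.1 hCf hv (hfmq _ hw' _ hv')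
            · rw [hv, hmem hw' c hc, srch_xor' hwr hrc] at hv'
              exact absurd hv' (by simp)
            · rw [hv, hmem hw' _ hd, srch_xor hwr hwd] at hv'
              exact absurd hv' (by simp)
            · rw [srch_mem] at hv
              obtain ⟨i, hi6, hi, rfl⟩ := hv
              rw [hmem hw' i (srch_lt hUlt hi), srch_xor hwr (by
                rw [hw, Nat.testBit_or, hi, Bool.true_or])] at hv'
              exact absurd hv' (by simp)
          · exfalso
            have hun' : v ∈ un Cs := by
              rw [hun]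
              exact Finset.mem_union_right _ hv'
            rcases hv with (hv | hv | hv) | hv
            · exact Finset.disjoint_left.1 hCd hv hv'
            · rw [hv] at hun'
              exact hoff c hc hun'
            · rw [hv] at hun'
              exact hoff _ hd hun'
            · rw [srch_mem] at hv
              obtain ⟨i, hi6, hi, rfl⟩ := hv
              exact hoff i (srch_lt hUlt hi) hun')
        have h3 : (insert (f c) (fm f rem) ∪ un Cs : Finset V) =
            C ∪ {f c, f t.2.1} ∪ fm f t.2.2 ∪ (insert (f t.2.1) (fm f (rem ^^^ w)) ∪ un Cs') := by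
          ext v
          conv_lhs => rw [hun, hsplit, hw]
          simp only [Finset.mem_union, Finset.mem_insert, Finset.mem_singleton, srch_or,
            srch_pow (hq6 hd)]
          tauto
        rw [h3]
        exact h2
    · -- an edge
      rw [List.any_eq_true] at hs
      obtain ⟨y, hy, hs⟩ := hs
      simp only [Bool.and_eq_true, Bool.not_eq_true', decide_eq_false_iff_not] at hs
      obtain ⟨⟨hyb, hyr⟩, hs⟩ := hs
      have hyq : y < q := srch_lt hrem hyr
      have hcy : c ≠ y := by
        intro e
        rw [← e, hrc] at hyr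
        exact absurd hyr (by simp)
      have hwr : 2 ^ y &&& rem = 2 ^ y := by
        apply Nat.eq_of_testBit_eq
        intro i
        rw [Nat.testBit_and, Nat.testBit_two_pow]
        by_cases h2 : y = i
        · subst h2
          rw [hyr]
          simp
        · simp [h2]
      have hw' : rem ^^^ 2 ^ y < 2 ^ q := Nat.xor_lt_two_pow hrem
        (Nat.pow_lt_pow_right (by norm_num) hyq)
      have h1 := ih b y (rem ^^^ 2 ^ y) bs Cs hq hC hb hyq hw'
        (srch_xor hwr Nat.testBit_two_pow_self) hs
      have hsplit := srch_split hwr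
      have h2 := srch_append (srch_edge (hC.adj c hc y hyq hcy)) h1 (by
        intro v hv hv'
        simp only [Finset.mem_union, Finset.mem_insert, Finset.mem_singleton] at hv hv'
        rcases hv with hv | hv
        · exfalso
          rcases hv' with (hv' | hv') | hv'
          · exact hcy (hC.inj c hc y hyq (hv.symm.trans hv'))
          · rw [hv, hmem hw' c hc, srch_xor' hwr hrc] at hv'
            exact absurd hv' (by simp)
          · rw [hv] at hv'
            exact hoff c hc hv'
        · exact hv)
      have h3 : (insert (f c) (fm f rem) ∪ un Cs : Finset V) =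
          {f c, f y} ∪ (insert (f y) (fm f (rem ^^^ 2 ^ y)) ∪ un Cs) := by
        ext v
        conv_lhs => rw [hsplit]
        simp only [Finset.mem_union, Finset.mem_insert, Finset.mem_singleton, srch_or,
          srch_pow (hq6 hyq)]
        tauto
      rw [h3]
      exact h2

end Pool.Agent.Helper81.OP
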